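import Pool.Agent.N236.RT.Stm
import Pool.Agent.H388SL.DobC

/-!
# Project RT, part END: points on torus cosets have large height (Dobrowolski)
-/

set_option autoImplicit false
set_option linter.unusedSectionVars false
set_option linter.unusedVariables false

namespace Pool.Agent.N713.RT

open Module IntermediateField Pool.Agent.N236.RT

section

variable {K : Type} [Field K] [NumberField K]

/-- the sum over the embeddings of `K` is `[K : L]` times the sum over the embeddings of `L` -/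
lemma sum_emb (L : IntermediateField ℚ K) [NumberField L] (f : ℂ → ℝ) (α : L) :
    ∑ σ : K →ₐ[ℚ] ℂ, f (σ (α : K)) = (finrank L K : ℝ) * ∑ τ : L →ₐ[ℚ] ℂ, f (τ α) := by
  classical
  rw [Finset.mul_sum]
  rw [← Finset.sum_fiberwise (s := Finset.univ) (g := fun σ : K →ₐ[ℚ] ℂ => σ.comp L.val)
    (f := fun σ : K →ₐ[ℚ] ℂ => f (σ (α : K)))]
  refine Finset.sum_congr rfl fun τ _ => ?_
  have hcard : (Finset.univ.filter fun σ : K →ₐ[ℚ] ℂ => σ.comp L.val = τ).card = finrank L K := by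
    let _ : Algebra L ℂ := τ.toRingHom.toAlgebra
    rw [← AlgHom.card L K ℂ, ← Fintype.card_coe]
    refine Fintype.card_congr ?_
    refine
      { toFun := fun σ => { toRingHom := (σ.1 : K →+* ℂ), commutes' := fun x => ?_ }
        invFun := fun ρ => ⟨ρ.toRingHom.toRatAlgHom, ?_⟩
        left_inv := ?_
        right_inv := ?_ }
    · have h := (Finset.mem_filter.1 σ.2).2
      exact DFunLike.congr_fun h x
    · rw [Finset.mem_filter]
      refine ⟨Finset.mem_univ _, ?_⟩
      ext x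
      exact ρ.commutes x
    · intro σ
      apply Subtype.ext
      ext x
      rfl
    · intro ρ
      ext x
      rfl
  rw [← hcard, Finset.card_eq_sum_ones, Nat.cast_sum, Finset.sum_mul]
  refine Finset.sum_congr rfl fun σ hσ => ?_
  have h := (Finset.mem_filter.1 hσ).2
  rw [← h]
  simp only [Nat.cast_one, one_mul]
  rfl

/-- the absolute value of the norm of a unit is `1` -/
lemma prod_unit {x : K} (hx : Unt x) : ∏ σ : K →ₐ[ℚ] ℂ, ‖σ x‖ = 1 := by
  obtain ⟨h0, hi, hi'⟩ := hx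
  have h1 : ∀ y : K, ∏ σ : K →ₐ[ℚ] ℂ, ‖σ y‖ = |(Algebra.norm ℚ y : ℝ)| := by
    intro y
    have := Algebra.norm_eq_prod_embeddings ℚ ℂ y
    rw [← norm_prod, ← this]
    simp
  obtain ⟨m, hm⟩ := IsIntegrallyClosed.isIntegral_iff.1 (Algebra.isIntegral_norm ℚ hi)
  obtain ⟨n, hn⟩ := IsIntegrallyClosed.isIntegral_iff.1 (Algebra.isIntegral_norm ℚ hi')
  have hmn : (m : ℚ) * n = 1 := by
    have : Algebra.norm ℚ x * Algebra.norm ℚ x⁻¹ = 1 := by
      rw [← map_mul, mul_inv_cancel₀ h0, map_one]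
    rw [← hm, ← hn] at this
    simpa using this
  have hmn' : m * n = 1 := by exact_mod_cast hmn
  have hu : |m| = 1 := Int.isUnit_iff_abs_eq.1 (IsUnit.of_mul_eq_one _ hmn')
  rw [h1, ← hm]
  have : ((algebraMap ℤ ℚ m : ℚ) : ℝ) = (m : ℝ) := by simp
  rw [this, ← Int.cast_abs, hu, Int.cast_one]

lemma lam_nonneg (x : K) : 0 ≤ Pool.Agent.N236.RT.lam x :=
  Finset.sum_nonneg fun σ _ => Real.log_nonneg (le_max_left _ _)

lemma lam_inv {x : K} (hx : Unt x) : Pool.Agent.N236.RT.lam x⁻¹ = Pool.Agent.N236.RT.lam x := by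
  have h0 := hx.1
  have hp := prod_unit hx
  have hpos : ∀ σ : K →ₐ[ℚ] ℂ, 0 < ‖σ x‖ := fun σ =>
    norm_pos_iff.2 ((map_ne_zero_iff _ σ.toRingHom.injective).2 h0)
  have hlog : ∑ σ : K →ₐ[ℚ] ℂ, Real.log ‖σ x‖ = 0 := by
    rw [← Real.log_prod (fun σ _ => (hpos σ).ne'), hp, Real.log_one]
  have key : ∀ t : ℝ, 0 < t → Real.log (max 1 t⁻¹) = Real.log (max 1 t) - Real.log t := by
    intro t ht
    rcases le_total 1 t with h | h
    · rw [max_eq_right h, max_eq_left (inv_le_one_of_one_le₀ h)]; simp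
    · rw [max_eq_left h, max_eq_right ((one_le_inv₀ ht).2 h), Real.log_inv, Real.log_one]; ring
  unfold Pool.Agent.N236.RT.lam
  have : ∀ σ : K →ₐ[ℚ] ℂ, Real.log (max 1 ‖σ x⁻¹‖) = Real.log (max 1 ‖σ x‖) - Real.log ‖σ x‖ := by
    intro σ
    rw [map_inv₀, norm_inv]
    exact key _ (hpos σ)
  simp only [this]
  rw [Finset.sum_sub_distrib, hlog, sub_zero]

lemma log_max_mul {a b : ℝ} (ha : 0 ≤ a) (hb : 0 ≤ b) :
    Real.log (max 1 (a * b)) ≤ Real.log (max 1 a) + Real.log (max 1 b) := by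
  rw [← Real.log_mul (by positivity) (by positivity)]
  apply Real.log_le_log (by positivity)
  apply max_le
  · exact one_le_mul_of_one_le_of_one_le (le_max_left _ _) (le_max_left _ _)
  · exact mul_le_mul (le_max_right _ _) (le_max_right _ _) hb (by positivity)

lemma lam_mul (x y : K) : Pool.Agent.N236.RT.lam (x * y) ≤
    Pool.Agent.N236.RT.lam x + Pool.Agent.N236.RT.lam y := by
  unfold Pool.Agent.N236.RT.lam
  rw [← Finset.sum_add_distrib]
  refine Finset.sum_le_sum fun σ _ => ?_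
  rw [map_mul, norm_mul]
  exact log_max_mul (norm_nonneg _) (norm_nonneg _)

lemma lam_pow (x : K) (n : ℕ) : Pool.Agent.N236.RT.lam (x ^ n) ≤ n * Pool.Agent.N236.RT.lam x := by
  induction n with
  | zero => simp [Pool.Agent.N236.RT.lam]
  | succ n ih =>
    rw [pow_succ]
    refine (lam_mul _ _).trans ?_
    push_cast
    linarith

lemma unt_inv {x : K} (hx : Unt x) : Unt x⁻¹ := ⟨inv_ne_zero hx.1, hx.2.2, by
  rw [inv_inv]; exact hx.2.1⟩

lemma lam_zpow {x : K} (hx : Unt x) (r : ℤ) :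
    Pool.Agent.N236.RT.lam (x ^ r) ≤ (r.natAbs : ℝ) * Pool.Agent.N236.RT.lam x := by
  rcases Int.natAbs_eq r with h | h
  · rw [h, zpow_natCast]
    simpa using lam_pow x r.natAbs
  · rw [h, zpow_neg, zpow_natCast, ← inv_pow, ← lam_inv hx]
    simpa using lam_pow x⁻¹ r.natAbs

lemma int_zpow {x : K} (hx : Unt x) (r : ℤ) : IsIntegral ℤ (x ^ r) := by
  rcases Int.natAbs_eq r with h | h
  · rw [h, zpow_natCast]; exact hx.2.1.pow _
  · rw [h, zpow_neg, zpow_natCast, ← inv_pow]; exact hx.2.2.pow _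

end

theorem t_end : S_COL → S_END := by
  intro hcol
  obtain ⟨c, hc, hdob⟩ := Pool.Agent.H388SL.dob
  refine ⟨c, hc, ?_⟩
  intro K _ _ F a b x y hF hFc hbd hx hy hind hev
  obtain ⟨r, s, e, g, hrs, he, hg0, hge, hgz, hra, hsb⟩ :=
    hcol K F a b x y hF hFc hbd hx.1 hy.1 hev
  set z : K := x ^ r * y ^ s with hz
  have hzi : IsIntegral ℤ z := (int_zpow hx r).mul (int_zpow hy s)
  have hz0 : z ≠ 0 := mul_ne_zero (zpow_ne_zero _ hx.1) (zpow_ne_zero _ hy.1)
  have hzr : ∀ n : ℕ, 0 < n → z ^ n ≠ 1 := by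
    intro n hn h
    rw [hz, mul_pow, ← zpow_natCast, ← zpow_natCast, ← zpow_mul, ← zpow_mul] at h
    obtain ⟨h1, h2⟩ := hind _ _ h
    have hn' : (n : ℤ) ≠ 0 := by positivity
    apply hrs
    rw [Prod.mk.injEq]
    exact ⟨(mul_eq_zero.1 h1).resolve_right hn', (mul_eq_zero.1 h2).resolve_right hn'⟩
  have hzQ : IsIntegral ℚ z := hzi.tower_top
  set L : IntermediateField ℚ K := adjoin ℚ {z} with hL
  have : NumberField L := { to_charZero := inferInstance, to_finiteDimensional := inferInstance }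
  set α : L := AdjoinSimple.gen ℚ z with hα
  have hαz : (α : K) = z := AdjoinSimple.coe_gen ℚ z
  have hαi : IsIntegral ℤ α := by
    rw [← hαz] at hzi
    exact (isIntegral_algebraMap_iff (algebraMap L K).injective).mp hzi
  have hα0 : α ≠ 0 := by
    intro h
    apply hz0
    rw [← hαz, h]; rfl
  have hαroot : ∀ n : ℕ, 0 < n → α ^ n ≠ 1 := by
    intro n hn h
    apply hzr n hn
    rw [← hαz]
    have := congrArg (fun t : L => (t : K)) h
    simpa using this
  have hαc : Pool.Agent.H388SL.CInj α := by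
    intro σ τ h
    apply adjoin_algHom_ext ℚ (s := {z})
    intro t ht
    rw [Set.mem_singleton_iff] at ht
    subst ht
    exact h
  have hd : finrank ℚ L = (minpoly ℚ z).natDegree := adjoin.finrank hzQ
  have hde : finrank ℚ L ≤ e := by
    rw [hd]
    exact (Polynomial.natDegree_le_of_dvd (minpoly.dvd ℚ z hgz) hg0).trans hge
  have hlam := hdob L α hαi hα0 hαroot hαc
  have hsum := sum_emb L (fun w => Real.log (max 1 ‖w‖)) α
  rw [hαz] at hsum
  change Pool.Agent.N236.RT.lam z = _ * Pool.Agent.H388SL.lam α at hsum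
  -- degrees
  have hdpos : 0 < finrank ℚ L := finrank_pos
  have hkpos : 0 < finrank L K := finrank_pos
  have htower : finrank ℚ L * finrank L K = finrank ℚ K := finrank_mul_finrank ℚ L K
  have hNpos : (0 : ℝ) < finrank ℚ K := by exact_mod_cast (finrank_pos : 0 < finrank ℚ K)
  have hrs1 : 1 ≤ r.natAbs + s.natAbs := by
    by_contra h
    have h1 : r.natAbs = 0 := by omega
    have h2 : s.natAbs = 0 := by omega
    exact hrs (by rw [Int.natAbs_eq_zero.1 h1, Int.natAbs_eq_zero.1 h2])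
  have heab : e ≤ a + b := by
    calc e ≤ e * (r.natAbs + s.natAbs) := Nat.le_mul_of_pos_right _ hrs1
      _ = e * r.natAbs + e * s.natAbs := by ring
      _ ≤ a + b := by omega
  have hdab : finrank ℚ L ≤ a + b := hde.trans heab
  -- logarithms
  have hl1 : 0 < Real.log (2 * (finrank ℚ L : ℝ)) := by
    apply Real.log_pos
    have : (1 : ℝ) ≤ finrank ℚ L := by exact_mod_cast hdpos
    linarith
  have hl2 : Real.log (2 * (finrank ℚ L : ℝ)) ≤ Real.log (2 * ((a : ℝ) + b)) := by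
    apply Real.log_le_log (by positivity)
    have : (finrank ℚ L : ℝ) ≤ (a : ℝ) + b := by exact_mod_cast hdab
    linarith
  have h3 : c / Real.log (2 * ((a : ℝ) + b)) ^ 3 ≤ c / Real.log (2 * (finrank ℚ L : ℝ)) ^ 3 := by
    apply div_le_div_of_nonneg_left hc.le (by positivity)
    exact pow_le_pow_left₀ hl1.le hl2 3
  refine h3.trans (hlam.trans ?_)
  rw [le_div_iff₀ hNpos]
  have h4 : Pool.Agent.H388SL.lam α * (finrank ℚ K : ℝ) =
      (finrank ℚ L : ℝ) * Pool.Agent.N236.RT.lam z := by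
    rw [hsum, ← htower]; push_cast; ring
  rw [h4]
  have h5 : Pool.Agent.N236.RT.lam z ≤ (r.natAbs : ℝ) * Pool.Agent.N236.RT.lam x +
      (s.natAbs : ℝ) * Pool.Agent.N236.RT.lam y :=
    (lam_mul _ _).trans (add_le_add (lam_zpow hx r) (lam_zpow hy s))
  have h6 : (finrank ℚ L : ℝ) ≤ e := by exact_mod_cast hde
  have hra' : (e : ℝ) * (r.natAbs : ℝ) ≤ a := by exact_mod_cast hra
  have hsb' : (e : ℝ) * (s.natAbs : ℝ) ≤ b := by exact_mod_cast hsb
  calc (finrank ℚ L : ℝ) * Pool.Agent.N236.RT.lam z ≤ e * Pool.Agent.N236.RT.lam z :=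
        mul_le_mul_of_nonneg_right h6 (lam_nonneg z)
    _ ≤ e * ((r.natAbs : ℝ) * Pool.Agent.N236.RT.lam x +
          (s.natAbs : ℝ) * Pool.Agent.N236.RT.lam y) :=
        mul_le_mul_of_nonneg_left h5 (by positivity)
    _ = (e * (r.natAbs : ℝ)) * Pool.Agent.N236.RT.lam x +
          (e * (s.natAbs : ℝ)) * Pool.Agent.N236.RT.lam y := by ring
    _ ≤ a * Pool.Agent.N236.RT.lam x + b * Pool.Agent.N236.RT.lam y :=
        add_le_add (mul_le_mul_of_nonneg_right hra' (lam_nonneg x))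
          (mul_le_mul_of_nonneg_right hsb' (lam_nonneg y))

end Pool.Agent.N713.RT
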